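import Pool.Agent.Helper20.QP.St1

/-! # QP MODULE COL: collars -/

set_option autoImplicit false

open Filter Topology Matrix Set Metric MeasureTheory
open scoped ComplexConjugate ENNReal

namespace Pool.Agent.Helper48.QP

open Pool.Agent.Helper35.PM (hs Mat SL IsDiscrete)
open Pool.Agent.Helper20.QD Pool.Agent.Helper20.QP

theorem sinh_half_le {l : ℝ} (h0 : 0 < l) (h1 : l ≤ 1) : Real.sinh (l / 2) ≤ l := by
  have e1 := Real.abs_exp_sub_one_sub_id_le (x := l / 2) (by rw [abs_of_pos] <;> linarith)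
  have e2 := Real.add_one_le_exp (-(l / 2))
  rw [abs_le] at e1
  rw [Real.sinh_eq]
  nlinarith [e1.2]

theorem sin_ge {l x : ℝ} (h0 : 0 < l) (h1 : 64 * l < x) (h2 : x < Real.pi - 64 * l) :
    2 / Real.pi * (64 * l) ≤ Real.sin x := by
  have hp : 0 < 2 / Real.pi := by positivity
  rcases le_total x (Real.pi / 2) with h | h
  · have := Real.mul_le_sin (x := x) (by linarith) h
    refine le_trans ?_ this
    exact mul_le_mul_of_nonneg_left h1.le hp.le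
  · have := Real.mul_le_sin (x := Real.pi - x) (by linarith) (by linarith)
    rw [Real.sin_pi_sub] at this
    refine le_trans ?_ this
    exact mul_le_mul_of_nonneg_left (by linarith) hp.le

theorem sab_sub {l : ℝ} {w : ℂ} (hw : w ∈ Sab 64 (Real.pi / l - 64)) : w ∈ Sm (Real.pi / l) := by
  obtain ⟨h1, h2⟩ := hw
  exact ⟨by linarith, by linarith⟩

theorem short {A : SL} {l : ℝ} {q : ℂ → ℂ} (h : SC A l q) (hl : l ≤ 1) {w : ℂ}
    (hw : w ∈ Sab 64 (Real.pi / l - 64)) : dl (q w) (mob A (q w)) ≤ 1 / 1600 := by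
  have hm := sab_sub hw
  have l0 := h.l0
  have hm1 : w + 1 ∈ Sm (Real.pi / l) := by
    obtain ⟨h1, h2⟩ := hm
    refine ⟨?_, ?_⟩
    · simpa using h1
    · simpa using h2
  rw [← h.per w hm, h.dst w hm (w + 1) hm1]
  have e1 : (l : ℂ) * (w - (w + 1)) / 2 = -(((l / 2 : ℝ)) : ℂ) := by push_cast; ring
  have e2 : ‖Complex.sinh ((l : ℂ) * (w - (w + 1)) / 2)‖ = Real.sinh (l / 2) := by
    rw [e1, Complex.sinh_neg, norm_neg, ← Complex.ofReal_sinh, Complex.norm_real,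
      Real.norm_of_nonneg]
    exact Real.sinh_nonneg_iff.2 (by linarith)
  have e3 : (w + 1).im = w.im := by simp
  rw [e2, e3]
  obtain ⟨h1, h2⟩ := hw
  have x1 : 64 * l < l * w.im := by nlinarith
  have x2 : l * w.im < Real.pi - 64 * l := by
    have : l * w.im < l * (Real.pi / l - 64) := mul_lt_mul_of_pos_left h2 l0
    have e : l * (Real.pi / l - 64) = Real.pi - 64 * l := by field_simp
    linarith
  have hs := sin_ge l0 x1 x2
  have hsh := sinh_half_le l0 hl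
  have hsh0 : 0 ≤ Real.sinh (l / 2) := Real.sinh_nonneg_iff.2 (by linarith)
  have hpi := Real.pi_pos
  have hpi2 := Real.pi_lt_d2
  have hlow : 40 * l ≤ Real.sin (l * w.im) := by
    refine le_trans ?_ hs
    rw [div_mul_eq_mul_div, le_div_iff₀ hpi]
    nlinarith
  have hpos : 0 < Real.sin (l * w.im) := by nlinarith
  rw [div_le_iff₀ (by positivity)]
  have k1 : Real.sinh (l / 2) ^ 2 ≤ l ^ 2 := pow_le_pow_left₀ hsh0 hsh 2
  have k2 : (40 * l) * (40 * l) ≤ Real.sin (l * w.im) * Real.sin (l * w.im) :=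
    mul_self_le_mul_self (by linarith) hlow
  nlinarith

variable {Γ : Type} [Group Γ]

theorem conj_dl (hSUB : StSUB) (hMET : StMET) {σ : Γ →* SL} (hF : Fuch σ) (γ α : Γ) {u : ℂ}
    (hu : u ∈ D) : dl (mob (σ γ) u) (mob (σ (γ * α * γ⁻¹)) (mob (σ γ) u)) =
      dl u (mob (σ α) u) := by
  obtain ⟨S1, S2, S3, S4, -, -⟩ := hSUB
  have hu' : u ∈ DD := ball_subset_closedBall hu
  obtain ⟨a1, a2, a3, a4, a5⟩ := S1 (σ γ) (hF.su γ)
  obtain ⟨i1, i2, i3, i4, i5⟩ := S1 (σ γ)⁻¹ a1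
  obtain ⟨b1, b2, b3, b4, b5⟩ := S1 (σ α) (hF.su α)
  have hz : mob (σ γ) u ∈ D := a3.mapsTo hu
  have hz' : mob (σ γ) u ∈ DD := ball_subset_closedBall hz
  have e : σ (γ * α * γ⁻¹) = σ γ * σ α * (σ γ)⁻¹ := by rw [map_mul, map_mul, map_inv]
  have e1 : mob (σ γ * σ α * (σ γ)⁻¹) (mob (σ γ) u) = mob (σ γ) (mob (σ α) u) := by
    rw [(S4 (σ γ * σ α) (σ γ)⁻¹ _ (i2 _ hz')).1, a5 u hu', (S4 (σ γ) (σ α) u (b2 u hu')).1]
  rw [e, e1]
  exact hMET.1 (σ γ) u _ (hF.su γ) hu (b3.mapsTo hu)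

theorem hCOL (hSUB : StSUB) (hMET : StMET) (hZAS : StZAS) (hCEN : StCEN) : StCOL := by
  intro Γ _ σ hF hTF α β l l' q q' pα pβ hα hβ hl hl'
  obtain ⟨-, C2, -, C4⟩ := hCEN Γ σ hF hTF
  constructor
  · intro γ hγ
    rw [Set.disjoint_left]
    rintro z ⟨u, ⟨w', hw', rfl⟩, hz1⟩ ⟨w, hw, hz2⟩
    have hu : q w' ∈ D := hα.bij.mapsTo (sab_sub hw')
    have hzD : z ∈ D := hz2 ▸ hα.bij.mapsTo (sab_sub hw)
    have k1 : dl z (mob (σ α) z) ≤ 1 / 1600 := hz2 ▸ short hα hl hw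
    have k2 : dl z (mob (σ (γ * α * γ⁻¹)) z) ≤ 1 / 1600 := by
      rw [← hz1, conj_dl hSUB hMET hF γ α hu]
      exact short hα hl hw'
    have cm := hZAS Γ σ hF hTF z (γ * α * γ⁻¹) α hzD k2 k1
    obtain ⟨m, hm⟩ := pα.2 _ cm
    have c2 := C2 α γ 1 m pα.1 one_ne_zero (by rw [zpow_one]; exact hm)
    obtain ⟨n, hn⟩ := pα.2 _ c2
    exact hγ n hn
  · intro hC γ
    rw [Set.disjoint_left]
    rintro z ⟨u, ⟨w', hw', rfl⟩, hz1⟩ ⟨w, hw, hz2⟩
    have hu : q w' ∈ D := hα.bij.mapsTo (sab_sub hw')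
    have hzD : z ∈ D := hz2 ▸ hβ.bij.mapsTo (sab_sub hw)
    have k1 : dl z (mob (σ β) z) ≤ 1 / 1600 := hz2 ▸ short hβ hl' hw
    have k2 : dl z (mob (σ (γ * α * γ⁻¹)) z) ≤ 1 / 1600 := by
      rw [← hz1, conj_dl hSUB hMET hF γ α hu]
      exact short hα hl hw'
    have cm := hZAS Γ σ hF hTF z (γ * α * γ⁻¹) β hzD k2 k1
    obtain ⟨n, hn⟩ := pβ.2 _ cm
    have cm2 : Commute (γ⁻¹ * β * γ) α := by
      have h : γ * α * γ⁻¹ * β = β * (γ * α * γ⁻¹) := cm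
      have h2 : γ⁻¹ * (γ * α * γ⁻¹ * β) * γ = γ⁻¹ * (β * (γ * α * γ⁻¹)) * γ := by rw [h]
      have h3 : α * (γ⁻¹ * β * γ) = γ⁻¹ * β * γ * α := by
        calc α * (γ⁻¹ * β * γ) = γ⁻¹ * (γ * α * γ⁻¹ * β) * γ := by group
          _ = γ⁻¹ * (β * (γ * α * γ⁻¹)) * γ := h2
          _ = γ⁻¹ * β * γ * α := by group
      exact h3.symm
    obtain ⟨m, hm⟩ := pα.2 _ cm2
    have hb : β ^ (1 : ℤ) = β ^ (n * m) := by
      rw [_root_.zpow_one, _root_.zpow_mul, ← hn, conj_zpow, ← hm]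
      group
    have hnm := C4 β 1 (n * m) pβ.1 hb
    rcases Int.eq_one_or_neg_one_of_mul_eq_one hnm.symm with h | h
    · apply hC
      refine ⟨γ, Or.inl ?_⟩
      rw [hn, h, zpow_one]
    · apply hC
      refine ⟨γ, Or.inr ?_⟩
      rw [hn, h, _root_.zpow_neg, _root_.zpow_one]

end Pool.Agent.Helper48.QP
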